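import Pool.Agent.helper37.NF.Spec
import Pool.Agent.helper55.NK.Base

set_option autoImplicit false

namespace Pool.Agent.helper37.NF

open Finset Pool.Agent.NK

private theorem CH4_aux (h1 : BIG_stmt) (h2 : SMA_stmt) (h3 : MO4_stmt) (h4 : CHA_stmt) (k : ℕ) :
    ∀ (a b : ℕ) (C : Finset (ℕ × ℕ)), 2 ≤ k → 4 * k ≤ a + b →
      (∀ c ∈ C, 1 ≤ c.1 ∧ 1 ≤ c.2 ∧ c.1 + c.2 ≤ k) → IsCh C →
      ∑ c ∈ C, a.choose c.1 * b.choose c.2 ≤ MV (a + b) k := by
  induction k using Nat.strong_induction_on with
  | _ k ih =>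
    intro a b C hk hab hC hch
    by_cases h10 : 10 * k ≤ a + b
    · exact h4 a b k C hk h10 hC hch
    rcases C.eq_empty_or_nonempty with hE | hE
    · rw [hE, sum_empty]
      exact Nat.zero_le _
    obtain ⟨m, hm, hmax⟩ := exists_max_image C (fun c => c.1) hE
    have hlt : ∀ c ∈ C.erase m, c.1 < m.1 ∧ c.2 < m.2 := by
      intro c hc
      rw [mem_erase] at hc
      rcases hch c hc.2 m hm hc.1 with h | h
      · exact h
      · have := hmax c hc.2
        omega
    obtain ⟨hm1, hm2, hmk⟩ := hC m hm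
    have hmo : MV (a + b) (m.1 + m.2) ≤ MV (a + b) k := h3 (a + b) (m.1 + m.2) k (by omega) hmk hab
    rcases (C.erase m).eq_empty_or_nonempty with hD | ⟨c, hc⟩
    · rw [← add_sum_erase C (fun c => a.choose c.1 * b.choose c.2) hm, hD, sum_empty, add_zero]
      exact (Base.prod_le a b m.1 m.2 hm1 hm2 (by omega)).trans hmo
    · have e1 := hlt c hc
      have e2 := hC c (mem_of_mem_erase hc)
      have hi : 2 ≤ m.1 := by omega
      have hj : 2 ≤ m.2 := by omega
      by_cases h10t : 10 * (m.1 + m.2) ≤ a + b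
      · refine (h4 a b (m.1 + m.2) C (by omega) h10t ?_ hch).trans hmo
        intro d hd
        obtain ⟨d1, d2, -⟩ := hC d hd
        refine ⟨d1, d2, ?_⟩
        rcases eq_or_ne d m with rfl | hne
        · exact le_rfl
        · have := hlt d (mem_erase.2 ⟨hne, hd⟩)
          omega
      · have hch' : IsCh (C.erase m) := fun c hc d hd hne =>
          hch c (mem_of_mem_erase hc) d (mem_of_mem_erase hd) hne
        have hD := ih (m.1 + m.2 - 2) (by omega) a b (C.erase m) (by omega) (by omega) (by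
          intro d hd
          obtain ⟨d1, d2, -⟩ := hC d (mem_of_mem_erase hd)
          have := hlt d hd
          exact ⟨d1, d2, by omega⟩) hch'
        rw [← add_sum_erase C (fun c => a.choose c.1 * b.choose c.2) hm]
        refine (Nat.add_le_add_left hD _).trans (le_trans ?_ hmo)
        rcases Nat.lt_or_ge (m.1 + m.2) 12 with h12 | h12
        · exact h2 a b m.1 m.2 hi hj (by omega) (by omega) (by omega)
        · exact h1 a b m.1 m.2 hi hj h12 (by omega)

theorem CH4 (h1 : BIG_stmt) (h2 : SMA_stmt) (h3 : MO4_stmt) (h4 : CHA_stmt) : CH4_stmt :=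
  fun a b k C hk hab hC hch => CH4_aux h1 h2 h3 h4 k a b C hk hab hC hch

end Pool.Agent.helper37.NF
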