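import Pool.Agent.helper36.NF.SpecC

/-!
# No formula for a divisor of `n ^ n + 1` (MP_a70bdc_nt), row SIS
-/

set_option autoImplicit false

open Polynomial Filter FirstOrder FirstOrder.Language

namespace Pool.Agent.NoFormula

theorem SIS_pow (s n m : ℕ) (hn : n = 2 ^ (2 ^ s)) (hm : m = s + 2 ^ s) : n ^ n = 2 ^ (2 ^ m) := by
  have h : n ^ n = (2 ^ (2 ^ s)) ^ (2 ^ (2 ^ s)) := by rw [hn]
  rw [h, ← pow_mul, ← pow_add, hm]

theorem SIS (hFN2 : FN2_stmt) (hRES : RES_stmt) : SIS_stmt := by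
  intro A hA
  obtain ⟨b0, e0, he0, -, h⟩ := hFN2 A hA 0 1 one_pos
  obtain ⟨b, e', he', hres⟩ := hRES e0 b0 he0
  refine ⟨b + e' * b0, e', he', fun f hf j s n m hs hn hm hd => ?_⟩
  have hs' : s = b + e' * (b0 + j) := by rw [hs]; ring
  have h1 := hres (b0 + j)
  rw [← hs', ← hm] at h1
  have hbs : b0 ≤ s := by
    rw [hs]
    have : b0 ≤ e' * b0 := Nat.le_mul_of_pos_left b0 he'
    omega
  have hbm : b0 ≤ m := by
    rw [hm]
    exact hbs.trans (Nat.le_add_right _ _)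
  obtain ⟨i, hi⟩ := (Nat.modEq_iff_dvd' hbm).1 h1.symm
  have hmi : m = b0 + e0 * i := by omega
  have hp : (n : ℤ) ^ n = 2 ^ (2 ^ m) := by
    have h2 := SIS_pow s n m hn hm
    exact_mod_cast h2
  rw [hp] at hd ⊢
  rw [hmi] at hd ⊢
  exact h f hf i hd

end Pool.Agent.NoFormula
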